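import Pool.Agent.Helper64.LN.GoalsA
import Pool.Agent.Helper64.LN.GoalsB
import Pool.Agent.Helper64.LN.GoalsC

set_option autoImplicit false

/-! Project LN (MP_2b9d24_gt, phase 2), packet T1: the next lines. -/

open Topology Filter Set Metric UpperHalfPlane
open scoped MatrixGroups

namespace Pool.Agent.Helper25.LN

open Pool.Agent.Helper64 Pool.Agent.Helper64.LN

/-- The first time after `0` at which a curve starting in `U` meets `F`. -/
lemma next_pt {X : Type*} [TopologicalSpace X] (b : ℝ → X) (hb : Continuous b) (U V F : Set X)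
    (hU : IsOpen U) (hV : IsOpen V) (hUV : Disjoint U V) (hF : IsClosed F)
    (hcov : ∀ x, x ∉ F → x ∈ U ∪ V) (hFU : ∀ x ∈ U, x ∉ F)
    (h0 : ∀ᶠ t in 𝓝[>] (0 : ℝ), b t ∈ U) (h1 : ∃ t > 0, b t ∈ F) :
    ∃ t₁ > 0, b t₁ ∈ F ∧ ∀ t, 0 < t → t < t₁ → b t ∈ U := by
  obtain ⟨ε, hε, h2⟩ := mem_nhdsGT_iff_exists_Ioo_subset.1 h0
  have hε0 : (0 : ℝ) < ε := hε
  have h2' : ∀ t, 0 < t → t < ε → b t ∈ U := fun t h3 h4 => h2 ⟨h3, h4⟩
  obtain ⟨s, hs0, hs1⟩ := h1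
  set S : Set ℝ := {t | ε / 2 ≤ t ∧ b t ∈ F} with hS
  have hSc : IsClosed S := (isClosed_le continuous_const continuous_id).inter (hF.preimage hb)
  have hSn : S.Nonempty := by
    refine ⟨s, ?_, hs1⟩
    by_contra h3
    exact hFU _ (h2' s hs0 (by linarith [not_le.1 h3])) hs1
  have hSb : BddBelow S := ⟨ε / 2, fun t ht => ht.1⟩
  have hmem := hSc.csInf_mem hSn hSb
  refine ⟨sInf S, by linarith [hmem.1], hmem.2, ?_⟩
  have hnF : ∀ t, 0 < t → t < sInf S → b t ∉ F := by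
    intro t h3 h4 h5
    rcases lt_or_ge t ε with h6 | h6
    · exact hFU _ (h2' t h3 h6) h5
    · exact absurd (csInf_le hSb ⟨by linarith, h5⟩) (not_le.2 h4)
  have hpre : IsPreconnected (b '' Ioo 0 (sInf S)) :=
    isPreconnected_Ioo.image _ hb.continuousOn
  have hsub : b '' Ioo 0 (sInf S) ⊆ U := by
    refine hpre.subset_left_of_subset_union hU hV hUV ?_ ?_
    · rintro _ ⟨t, ht, rfl⟩
      exact hcov _ (hnF t ht.1 ht.2)
    · refine ⟨b (ε / 4), ⟨ε / 4, ⟨by linarith, by linarith [hmem.1]⟩, rfl⟩,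
        h2' _ (by linarith) (by linarith)⟩
  intro t h3 h4
  exact hsub ⟨t, ⟨h3, h4⟩, rfl⟩

/-- Commuting hyperbolic elements have the same axis. -/
lemma sf_of_comm (h d : SL(2, ℝ)) (hd : 2 < |d 0 0 + d 1 1|)
    (hc : mh h * mh d = mh d * mh h) (z : ℍ) (hz : sf d z = 0) : sf h z = 0 := by
  have e : h * d = d * h := by
    rw [← map_mul, ← map_mul] at hc
    rcases (mh_eq_iff _ _).1 hc with h1 | h1
    · exact h1
    · exfalso
      have h2 : h * d * h⁻¹ = -d := by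
        rw [h1]
        simp
      have htr : Matrix.trace ((h * d * h⁻¹ : SL(2, ℝ)) : Matrix (Fin 2) (Fin 2) ℝ) =
          Matrix.trace (d : Matrix (Fin 2) (Fin 2) ℝ) := by
        rw [Matrix.SpecialLinearGroup.coe_mul, Matrix.trace_mul_comm,
          ← Matrix.SpecialLinearGroup.coe_mul]
        simp
      rw [h2] at htr
      simp only [Matrix.SpecialLinearGroup.coe_neg, Matrix.trace_neg, Matrix.trace_fin_two] at htr
      have h3 : d 0 0 + d 1 1 = 0 := by linarith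
      rw [h3] at hd
      norm_num at hd
  have e' := congrArg (fun M : SL(2, ℝ) => (M : Matrix (Fin 2) (Fin 2) ℝ)) e
  simp only [Matrix.SpecialLinearGroup.coe_mul] at e'
  have e00 := congrFun (congrFun e' 0) 0
  have e01 := congrFun (congrFun e' 0) 1
  have e10 := congrFun (congrFun e' 1) 0
  simp only [Matrix.mul_apply, Fin.sum_univ_two] at e00 e01 e10
  have hdet := d.det_coe
  rw [Matrix.det_fin_two] at hdet
  simp only [sf] at hz ⊢
  generalize h 0 0 = a at *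
  generalize h 0 1 = b at *
  generalize h 1 0 = c at *
  generalize h 1 1 = f at *
  generalize d 0 0 = p at *
  generalize d 0 1 = q at *
  generalize d 1 0 = r at *
  generalize d 1 1 = s at *
  generalize z.re ^ 2 + z.im ^ 2 = N at *
  generalize z.re = x at *
  have k1 : c * q = b * r := by linarith
  have k2 : c * (s - p) = r * (f - a) := by linarith
  have k3 : b * (s - p) = q * (f - a) := by linarith
  have m1 : (c * N + (f - a) * x - b) * r = 0 := by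
    linear_combination c * hz - x * k2 + k1
  have m2 : (c * N + (f - a) * x - b) * q = 0 := by
    linear_combination b * hz + N * k1 - x * k3
  have m3 : (c * N + (f - a) * x - b) * (s - p) = 0 := by
    linear_combination (f - a) * hz + N * k2 - k3
  by_contra hne
  have hr : r = 0 := by
    rcases mul_eq_zero.1 m1 with h1 | h1
    · exact absurd h1 hne
    · exact h1
  have hq : q = 0 := by
    rcases mul_eq_zero.1 m2 with h1 | h1
    · exact absurd h1 hne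
    · exact h1
  have hs : s = p := by
    rcases mul_eq_zero.1 m3 with h1 | h1
    · exact absurd h1 hne
    · linarith
  rw [hr, hq, hs] at hdet
  rw [hs] at hd
  have h4 : p * p = 1 := by linarith
  rcases mul_self_eq_one_iff.1 h4 with h5 | h5
  · rw [h5] at hd
    norm_num at hd
  · rw [h5] at hd
    norm_num [abs_of_neg] at hd

lemma tr_conj (h g : SL(2, ℝ)) :
    (h * g * h⁻¹ : SL(2, ℝ)) 0 0 + (h * g * h⁻¹ : SL(2, ℝ)) 1 1 = g 0 0 + g 1 1 := by
  have htr : Matrix.trace ((h * g * h⁻¹ : SL(2, ℝ)) : Matrix (Fin 2) (Fin 2) ℝ) =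
      Matrix.trace (g : Matrix (Fin 2) (Fin 2) ℝ) := by
    rw [Matrix.SpecialLinearGroup.coe_mul, Matrix.trace_mul_comm,
      ← Matrix.SpecialLinearGroup.coe_mul]
    simp
  simpa [Matrix.trace_fin_two] using htr

/-- The next line in one direction. -/
lemma side_data.{v} (hG0 : GoalG0.{v}) (hG2 : GoalG2) (hPRE : GoalPRE.{v})
    (X : Type v) [TopologicalSpace X] [T2Space X] (p : X) (P : Set X) (u : ℍ → X)
    (C : OpenPartialHomeomorph ℂ X) (K : Set X) (g d : SL(2, ℝ)) (ω : C(ℝ, ℍ))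
    (hC : Crv p P u C K (mh g) ω) (hg : g ∈ PQ.deckG u) (hd : d ∈ PQ.deckG u)
    (hgh : 2 < |g 0 0 + g 1 1|) (hdh : 2 < |d 0 0 + d 1 1|) (hnc : Nc (mh g) (mh d))
    (hu : Continuous u) (α : C(ℝ, ℍ)) (hα1 : ∀ t, α (t + 1) = d • α t)
    (hα2 : ∀ t, sf d (α t) = 0) (hα3 : ∀ g ∈ PQ.deckG u, 2 < |g 0 0 + g 1 1| →
      Nc (mh g) (mh d) → ((Cr Sp (mh g) (mh d) → ∃ t, sf g (α t) = 0) ∧
          ∀ t₀, sf g (α t₀) = 0 → Cr Sp (mh g) (mh d) ∧ (∀ t, t ≠ t₀ → sf g (α t) ≠ 0) ∧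
            ∀ s t, s < t₀ → t₀ < t → sf g (α s) * sf g (α t) < 0)) (t₀ : ℝ)
    (ht₀ : sf g (α t₀) = 0) (κ : ℝ) (hκ : κ = 1 ∨ κ = -1) (U V : Set X) (hU : IsOpen U)
    (hV : IsOpen V) (hUV : Disjoint U V) (hcov : ∀ x, x ∉ frontier K → x ∈ U ∪ V)
    (hFU : ∀ x ∈ U, x ∉ frontier K) (h0 : ∀ᶠ t in 𝓝[>] (0 : ℝ), u (α (t₀ + κ * t)) ∈ U) :
    ∃ t₁ > 0, ∃ m ∈ PQ.deckG u, sf (m * g * m⁻¹) (α (t₀ + κ * t₁)) = 0 ∧
      Nc (mh g) (mh (m * g * m⁻¹)) ∧ Cr Sp (mh (m * g * m⁻¹)) (mh d) ∧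
      u (α (t₀ + κ * t₁)) ∈ frontier K ∧ ∀ t, 0 < t → t < t₁ → u (α (t₀ + κ * t)) ∈ U := by
  obtain ⟨hax, hpre⟩ := hPRE X p P u C K (mh g) ω hC
  obtain ⟨-, hg2, hg3⟩ := hG2 (PQ.deckG u) (hG0 X _ u hC.uni)
  have hgd : mh g ∈ deck u := mem_deck.2 ⟨g, hg, rfl⟩
  have hdd : mh d ∈ deck u := mem_deck.2 ⟨d, hd, rfl⟩
  have hκ0 : κ ≠ 0 := by
    rcases hκ with h | h <;> rw [h] <;> norm_num
  have hfr : ∀ z, u z ∈ frontier K ↔ ∃ g₁ ∈ deck u, z ∈ ax (g₁ * mh g * g₁⁻¹) := by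
    intro z
    rw [hC.fr]
    exact hpre z
  have hper : u (α (t₀ + κ * 1)) = u (α t₀) := by
    rcases hκ with h | h
    · rw [h, one_mul, hα1]
      exact hd _
    · rw [h]
      have h2 := hα1 (t₀ + -1 * 1)
      rw [show t₀ + -1 * 1 + 1 = t₀ by ring] at h2
      rw [h2]
      exact (hd _).symm
  have hc0 : u (α t₀) ∈ frontier K := by
    rw [hfr]
    refine ⟨1, one_mem _, ?_⟩
    rw [inv_one, mul_one, one_mul, ax_mh]
    exact ht₀
  obtain ⟨t₁, ht₁, h1, h2⟩ := next_pt (fun t => u (α (t₀ + κ * t)))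
    (hu.comp (α.continuous.comp (by fun_prop))) U V (frontier K) hU hV hUV isClosed_frontier
    hcov hFU h0 ⟨1, one_pos, by simpa only [hper] using hc0⟩
  obtain ⟨g₁, hg₁, h3⟩ := (hfr _).1 h1
  obtain ⟨m, hm, rfl⟩ := mem_deck.1 hg₁
  have hmm : m ∈ PQ.deckG u := hm
  rw [← map_inv, ← map_mul, ← map_mul, ax_mh] at h3
  have hne : sf g (α (t₀ + κ * t₁)) ≠ 0 :=
    ((hα3 g hg hgh hnc).2 t₀ ht₀).2.1 _ (by
      intro h4
      have : κ * t₁ = 0 := by linarith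
      rcases mul_eq_zero.1 this with h5 | h5
      · exact hκ0 h5
      · exact ht₁.ne' h5)
  have hlam : m * g * m⁻¹ ∈ PQ.deckG u :=
    (PQ.deckG u).mul_mem ((PQ.deckG u).mul_mem hmm hg) ((PQ.deckG u).inv_mem hmm)
  have hlh : 2 < |(m * g * m⁻¹ : SL(2, ℝ)) 0 0 + (m * g * m⁻¹ : SL(2, ℝ)) 1 1| := by
    rw [tr_conj]
    exact hgh
  have hg1 : mh g ≠ 1 := by
    intro h4
    apply hnc
    rw [h4, one_mul, mul_one]
  have hN1 : Nc (mh g) (mh (m * g * m⁻¹)) := by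
    intro h4
    have h5 : mh m * mh g = mh g * mh m := by
      refine hg3 (mh m) (Subgroup.mem_map_of_mem _ hmm) (mh g) (Subgroup.mem_map_of_mem _ hg) hg1 ?_
      rw [← map_inv, ← map_mul, ← map_mul]
      exact h4.symm
    have h6 : mh (m * g * m⁻¹) = mh g := by
      rw [map_mul, map_mul, map_inv, h5, mul_assoc, mul_inv_cancel, mul_one]
    apply hne
    rw [← ax_mh, ← h6, ax_mh]
    exact h3
  have hN2 : Nc (mh (m * g * m⁻¹)) (mh d) := by
    intro h4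
    have h5 : u (α (t₀ + κ * (t₁ / 2))) ∈ frontier K := by
      rw [hfr]
      refine ⟨mh m, hg₁, ?_⟩
      rw [← map_inv, ← map_mul, ← map_mul, ax_mh]
      exact sf_of_comm _ _ hdh h4 _ (hα2 _)
    exact hFU _ (h2 (t₁ / 2) (by linarith) (by linarith)) h5
  exact ⟨t₁, ht₁, m, hmm, h3, hN1, ((hα3 _ hlam hlh hN2).2 _ h3).1, h1, h2⟩

/-- The translated core curve avoids the axis. -/
lemma curve_avoids.{v} (hPRE : GoalPRE.{v}) (hL3 : GoalL3.{v})
    (X : Type v) [TopologicalSpace X] [T2Space X] (p : X) (P : Set X) (u : ℍ → X)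
    (C : OpenPartialHomeomorph ℂ X) (K : Set X) (γ : ℍ ≃ₜ ℍ) (ω : C(ℝ, ℍ))
    (hC : Crv p P u C K γ ω) (g₁ : ℍ ≃ₜ ℍ) (hg₁ : g₁ ∈ deck u) (hN : Nc γ (g₁ * γ * g₁⁻¹))
    (t : ℝ) : g₁ (ω t) ∉ ax γ := by
  intro h1
  rw [(hPRE X p P u C K γ ω hC).1] at h1
  obtain ⟨s, hs⟩ := h1
  have h2 : u (ω s) = u (ω t) := by
    rw [hs]
    exact deck_apply hg₁ _
  rw [hC.core, hC.core] at h2
  have hsrc : ∀ r : ℝ, Complex.exp (2 * Real.pi * Complex.I * r) ∈ C.source := by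
    intro r
    rw [hC.src]
    have e : ‖Complex.exp (2 * Real.pi * Complex.I * r)‖ = 1 := by
      rw [show 2 * (Real.pi : ℂ) * Complex.I * r = ((2 * Real.pi * r : ℝ) : ℂ) * Complex.I by
        push_cast
        ring]
      exact Complex.norm_exp_ofReal_mul_I _
    change 1 / 2 < ‖Complex.exp (2 * Real.pi * Complex.I * r)‖ ∧
      ‖Complex.exp (2 * Real.pi * Complex.I * r)‖ < 2
    rw [e]
    norm_num
  have h3 := C.injOn (hsrc s) (hsrc t) h2
  obtain ⟨k, hk⟩ := Complex.exp_eq_exp_iff_exists_int.1 h3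
  have hpi : (2 * Real.pi * Complex.I : ℂ) ≠ 0 := Complex.two_pi_I_ne_zero
  have h4 : (s : ℂ) = t + k := by
    have : 2 * (Real.pi : ℂ) * Complex.I * s = 2 * Real.pi * Complex.I * (t + k) := by
      rw [hk]
      ring
    exact mul_left_cancel₀ hpi this
  have h5 : s = t + k := by exact_mod_cast h4
  have hω : ∀ (n : ℕ) (r : ℝ), ω (r + n) = (γ ^ n) (ω r) := by
    intro n
    induction n with
    | zero => intro r; simp
    | succ n ih =>
      intro r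
      rw [pow_succ', Nat.cast_succ, ← add_assoc, hC.per, ih]
      rfl
  have hωz : ∀ (n : ℤ) (r : ℝ), ω (r + n) = (γ ^ n) (ω r) := by
    intro n r
    obtain ⟨m, rfl | rfl⟩ := n.eq_nat_or_neg
    · rw [zpow_natCast]
      exact_mod_cast hω m r
    · have h6 := hω m (r + ((-(m : ℤ) : ℤ) : ℝ))
      rw [show r + ((-(m : ℤ) : ℤ) : ℝ) + (m : ℝ) = r by push_cast; ring] at h6
      rw [h6, zpow_neg, zpow_natCast]
      exact ((γ ^ m).symm_apply_apply _).symm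
  rw [h5, hωz] at hs
  have h7 : γ ^ k = g₁ :=
    (hL3 X _ u hC.uni).2.1 _ ((deck u).zpow_mem hC.deck k) _ hg₁ _ hs
  apply hN
  rw [← h7]
  group

/-- GOAL T1. -/
theorem goalT1.{v} (hG0 : GoalG0.{v}) (hG2 : GoalG2) (hCR3 : GoalCR3) (hAX : GoalAX)
    (hSZ : GoalSZ) (hL3 : GoalL3.{v}) (hPRE : GoalPRE.{v}) (hCOL : GoalCOL.{v}) :
    GoalT1.{v} := by
  intro X _ _ p P u C K γ ω hC δ hδ hcr
  obtain ⟨g, hg, hγ⟩ := mem_deck.1 hC.deck
  obtain ⟨d, hd, rfl⟩ := mem_deck.1 hδ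
  subst hγ
  have hgΓ : g ∈ PQ.deckG u := hg
  have hdΓ : d ∈ PQ.deckG u := hd
  have hΓ := hG0 X _ u hC.uni
  obtain ⟨hgh, hdh, hnc⟩ := hCR3 _ hΓ g hgΓ d hdΓ hcr
  obtain ⟨α, hα1, hα2, -, hα3⟩ := hAX _ hΓ d hdΓ hdh
  obtain ⟨t₀, ht₀⟩ := (hα3 g hgΓ hgh hnc).1 hcr
  obtain ⟨-, hne, hsgn⟩ := (hα3 g hgΓ hgh hnc).2 t₀ ht₀
  have hu : Continuous u := by
    rw [← continuousOn_univ]
    have h1 := hC.uni.cov.continuousOn
    have h2 : u ⁻¹' (insert p P)ᶜ = univ := by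
      rw [← hC.uni.range, preimage_range]
    rwa [h2] at h1
  obtain ⟨hax, hpre⟩ := hPRE X p P u C K (mh g) ω hC
  obtain ⟨W, hW1, hW2, hW3, hW4, hW5, hW6⟩ := hCOL X p P u C K (mh g) ω hC
  have hKc : IsClosed K := hC.comp.isClosed
  -- the local structure
  have hs0 : α t₀ ∈ ax (mh g) := by
    rw [ax_mh]
    exact ht₀
  rw [hax] at hs0
  obtain ⟨s₀, hs₀⟩ := hs0
  have hloc := hW6 s₀
  rw [hs₀] at hloc
  have hAB : sf g (W 0 (3 / 4)) * sf g (W 0 (3 / 2)) < 0 := by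
    rw [← Sz_mh]
    exact hW5 0 0 (3 / 4) ⟨by norm_num, by norm_num⟩ (3 / 2) ⟨by norm_num, by norm_num⟩
  -- the two opens
  have hUo : IsOpen (interior K) := isOpen_interior
  have hVo : IsOpen Kᶜ := hKc.isOpen_compl
  have hdis : Disjoint (interior K) Kᶜ :=
    disjoint_left.2 fun x hx hx' => hx' (interior_subset hx)
  have hcov : ∀ x, x ∉ frontier K → x ∈ interior K ∪ Kᶜ := by
    intro x hx
    by_cases hxK : x ∈ K
    · left
      by_contra h1
      exact hx (by rw [hKc.frontier_eq]; exact ⟨hxK, h1⟩)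
    · exact Or.inr hxK
  have hF1 : ∀ x ∈ interior K, x ∉ frontier K := by
    intro x hx h1
    rw [hKc.frontier_eq] at h1
    exact h1.2 hx
  have hF2 : ∀ x ∈ Kᶜ, x ∉ frontier K := by
    intro x hx h1
    rw [hKc.frontier_eq] at h1
    exact hx h1.1
  -- the direction
  have hdir : ∃ κ : ℝ, (κ = 1 ∨ κ = -1) ∧
      (∀ t, 0 < t → sf g (α (t₀ + κ * t)) * sf g (W 0 (3 / 2)) < 0) ∧
      ∀ t, 0 < t → sf g (α (t₀ + -κ * t)) * sf g (W 0 (3 / 4)) < 0 := by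
    have hx : sf g (α (t₀ + 1)) ≠ 0 := hne _ (by linarith)
    have hS : ((∀ s, s < t₀ → 0 < sf g (α s)) ∧ ∀ t, t₀ < t → sf g (α t) < 0) ∨
        ((∀ s, s < t₀ → sf g (α s) < 0) ∧ ∀ t, t₀ < t → 0 < sf g (α t)) := by
      rcases lt_or_gt_of_ne hx with h1 | h1
      · left
        have h2 : ∀ s, s < t₀ → 0 < sf g (α s) := by
          intro s hs
          rcases mul_neg_iff.1 (hsgn s (t₀ + 1) hs (by linarith)) with h3 | h3
          · exact h3.1
          · exact absurd h3.2 (not_lt.2 h1.le)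
        refine ⟨h2, fun t ht => ?_⟩
        rcases mul_neg_iff.1 (hsgn (t₀ - 1) t (by linarith) ht) with h3 | h3
        · exact h3.2
        · exact absurd h3.1 (not_lt.2 (h2 _ (by linarith)).le)
      · right
        have h2 : ∀ s, s < t₀ → sf g (α s) < 0 := by
          intro s hs
          rcases mul_neg_iff.1 (hsgn s (t₀ + 1) hs (by linarith)) with h3 | h3
          · exact absurd h3.2 (not_lt.2 (le_of_lt h1))
          · exact h3.1
        refine ⟨h2, fun t ht => ?_⟩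
        rcases mul_neg_iff.1 (hsgn (t₀ - 1) t (by linarith) ht) with h3 | h3
        · exact absurd h3.1 (not_lt.2 (h2 _ (by linarith)).le)
        · exact h3.2
    rcases hS with ⟨h1, h2⟩ | ⟨h1, h2⟩ <;> rcases mul_neg_iff.1 hAB with ⟨h3, h4⟩ | ⟨h3, h4⟩
    · refine ⟨-1, Or.inr rfl, fun t ht => mul_neg_of_pos_of_neg (h1 _ (by linarith)) h4,
        fun t ht => mul_neg_of_neg_of_pos (h2 _ (by linarith)) h3⟩
    · refine ⟨1, Or.inl rfl, fun t ht => mul_neg_of_neg_of_pos (h2 _ (by linarith)) h4,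
        fun t ht => mul_neg_of_pos_of_neg (h1 _ (by linarith)) h3⟩
    · refine ⟨1, Or.inl rfl, fun t ht => mul_neg_of_pos_of_neg (h2 _ (by linarith)) h4,
        fun t ht => mul_neg_of_neg_of_pos (h1 _ (by linarith)) h3⟩
    · refine ⟨-1, Or.inr rfl, fun t ht => mul_neg_of_neg_of_pos (h1 _ (by linarith)) h4,
        fun t ht => mul_neg_of_pos_of_neg (h2 _ (by linarith)) h3⟩
  obtain ⟨κ, hκ, hin, hout⟩ := hdir
  have hev : ∀ κ' : ℝ, ∀ᶠ t in 𝓝[>] (0 : ℝ),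
      (Sz (mh g) (α (t₀ + κ' * t)) (W 0 (3 / 4)) → u (α (t₀ + κ' * t)) ∉ K) ∧
        (Sz (mh g) (α (t₀ + κ' * t)) (W 0 (3 / 2)) → u (α (t₀ + κ' * t)) ∈ interior K) := by
    intro κ'
    have hcont : Continuous fun t : ℝ => α (t₀ + κ' * t) :=
      α.continuous.comp (by fun_prop)
    have h1 : Tendsto (fun t : ℝ => α (t₀ + κ' * t)) (𝓝 0) (𝓝 (α t₀)) := by
      have := hcont.tendsto 0
      simpa using this
    exact (h1.eventually hloc).filter_mono nhdsWithin_le_nhds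
  have hev1 : ∀ᶠ t in 𝓝[>] (0 : ℝ), u (α (t₀ + κ * t)) ∈ interior K := by
    filter_upwards [hev κ, self_mem_nhdsWithin] with t h1 h2
    exact h1.2 ((Sz_mh _ _ _).2 (hin t h2))
  have hev2 : ∀ᶠ t in 𝓝[>] (0 : ℝ), u (α (t₀ + -κ * t)) ∈ Kᶜ := by
    filter_upwards [hev (-κ), self_mem_nhdsWithin] with t h1 h2
    exact h1.1 ((Sz_mh _ _ _).2 (hout t h2))
  obtain ⟨t₁, ht₁, m₁, hm₁, h11, h12, h13, h14, h15⟩ := side_data hG0 hG2 hPRE X p P u C K g d
    ω hC hgΓ hdΓ hgh hdh hnc hu α hα1 hα2 hα3 t₀ ht₀ κ hκ (interior K) Kᶜ hUo hVo hdis hcov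
    hF1 hev1
  obtain ⟨t₂, ht₂, m₂, hm₂, h21, h22, h23, h24, h25⟩ := side_data hG0 hG2 hPRE X p P u C K g d
    ω hC hgΓ hdΓ hgh hdh hnc hu α hα1 hα2 hα3 t₀ ht₀ (-κ) (by
      rcases hκ with h | h
      · right; rw [h]
      · left; rw [h, neg_neg]) Kᶜ (interior K) hVo hUo hdis.symm
    (fun x hx => (hcov x hx).symm) hF2 hev2
  have hc1 : mh m₁ * mh g * (mh m₁)⁻¹ = mh (m₁ * g * m₁⁻¹) := by
    rw [map_mul, map_mul, map_inv]
  have hc2 : mh m₂ * mh g * (mh m₂)⁻¹ = mh (m₂ * g * m₂⁻¹) := by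
    rw [map_mul, map_mul, map_inv]
  have hd1 : mh m₁ ∈ deck u := Subgroup.mem_map_of_mem _ hm₁
  have hd2 : mh m₂ ∈ deck u := Subgroup.mem_map_of_mem _ hm₂
  have hgd : mh g ∈ deck u := hC.deck
  have hc1d : mh m₁ * mh g * (mh m₁)⁻¹ ∈ deck u :=
    (deck u).mul_mem ((deck u).mul_mem hd1 hgd) ((deck u).inv_mem hd1)
  have hc2d : mh m₂ * mh g * (mh m₂)⁻¹ ∈ deck u :=
    (deck u).mul_mem ((deck u).mul_mem hd2 hgd) ((deck u).inv_mem hd2)
  -- points of the curves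
  have hpt : ∀ (m : SL(2, ℝ)) (z : ℍ), sf (m * g * m⁻¹) z = 0 → ∃ s, mh m (ω s) = z := by
    intro m z hz
    have h1 : (mh m) ((mh m)⁻¹ z) ∈ ax (mh m * mh g * (mh m)⁻¹) := by
      have : (mh m) ((mh m)⁻¹ z) = z := (mh m).apply_symm_apply z
      rw [this, ← map_inv, ← map_mul, ← map_mul, ax_mh]
      exact hz
    rw [ax_conj, hax] at h1
    obtain ⟨s, hs⟩ := h1
    exact ⟨s, by rw [hs]; exact (mh m).apply_symm_apply z⟩
  obtain ⟨s₁, hs₁⟩ := hpt m₁ _ h11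
  obtain ⟨s₂, hs₂⟩ := hpt m₂ _ h21
  refine ⟨mh m₁, hd1, mh m₂, hd2, by rw [hc1]; exact h12, by rw [hc2]; exact h22,
    by rw [hc1]; exact h13, by rw [hc2]; exact h23, ?_, ?_, ?_⟩
  · refine (hSZ (PQ.deckG u) hΓ (mh g) hgd (mh m₁ * mh g * (mh m₁)⁻¹) hc1d
      (mh m₂ * mh g * (mh m₂)⁻¹) hc2d ⟨g, rfl, hgh⟩ (by rw [hc1]; exact h12)
      (by rw [hc2]; exact h22) ⟨fun t => mh m₁ (ω t), (mh m₁).continuous.comp ω.continuous⟩
      ⟨fun t => mh m₂ (ω t), (mh m₂).continuous.comp ω.continuous⟩ ?_ ?_ ?_ ?_ s₁ s₂).2 ?_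
    · intro t
      change mh m₁ (ω (t + 1)) = mh m₁ (mh g ((mh m₁).symm (mh m₁ (ω t))))
      rw [(mh m₁).symm_apply_apply, hC.per]
    · intro t
      change mh m₂ (ω (t + 1)) = mh m₂ (mh g ((mh m₂).symm (mh m₂ (ω t))))
      rw [(mh m₂).symm_apply_apply, hC.per]
    · exact curve_avoids hPRE hL3 X p P u C K (mh g) ω hC (mh m₁) hd1 (by rw [hc1]; exact h12)
    · exact curve_avoids hPRE hL3 X p P u C K (mh g) ω hC (mh m₂) hd2 (by rw [hc2]; exact h22)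
    · change Sz (mh g) (mh m₁ (ω s₁)) (mh m₂ (ω s₂))
      rw [hs₁, hs₂, Sz_mh]
      rcases hκ with h | h
      · rw [mul_comm]
        exact hsgn _ _ (by rw [h]; linarith) (by rw [h]; linarith)
      · exact hsgn _ _ (by rw [h]; linarith) (by rw [h]; linarith)
  · refine ⟨⟨fun t => α (t₀ + κ * (t * t₁)), α.continuous.comp (by fun_prop)⟩, ?_, ?_, ?_⟩
    · change α (t₀ + κ * (((0 : unitInterval) : ℝ) * t₁)) ∈ _
      rw [show t₀ + κ * (((0 : unitInterval) : ℝ) * t₁) = t₀ by simp, ax_mh]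
      exact ht₀
    · change α (t₀ + κ * (((1 : unitInterval) : ℝ) * t₁)) ∈ _
      rw [show t₀ + κ * (((1 : unitInterval) : ℝ) * t₁) = t₀ + κ * t₁ by simp, hc1, ax_mh]
      exact h11
    · intro t
      change u (α (t₀ + κ * ((t : ℝ) * t₁))) ∈ K
      rcases eq_or_lt_of_le t.2.1 with h1 | h1
      · rw [← h1, show t₀ + κ * (0 * t₁) = t₀ by ring]
        have h2 : u (α t₀) ∈ frontier K := by
          rw [hC.fr]
          refine (hpre _).2 ⟨1, one_mem _, ?_⟩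
          rw [inv_one, mul_one, one_mul, ax_mh]
          exact ht₀
        exact hKc.frontier_subset h2
      rcases eq_or_lt_of_le t.2.2 with h3 | h3
      · rw [h3, one_mul]
        exact hKc.frontier_subset h14
      · exact interior_subset (h15 _ (mul_pos h1 ht₁) (by nlinarith))
  · refine ⟨⟨fun t => α (t₀ + -κ * (t * t₂)), α.continuous.comp (by fun_prop)⟩, ?_, ?_, ?_⟩
    · change α (t₀ + -κ * (((0 : unitInterval) : ℝ) * t₂)) ∈ _
      rw [show t₀ + -κ * (((0 : unitInterval) : ℝ) * t₂) = t₀ by simp, ax_mh]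
      exact ht₀
    · change α (t₀ + -κ * (((1 : unitInterval) : ℝ) * t₂)) ∈ _
      rw [show t₀ + -κ * (((1 : unitInterval) : ℝ) * t₂) = t₀ + -κ * t₂ by simp, hc2, ax_mh]
      exact h21
    · intro t
      change u (α (t₀ + -κ * ((t : ℝ) * t₂))) ∉ interior K
      rcases eq_or_lt_of_le t.2.1 with h1 | h1
      · rw [← h1, show t₀ + -κ * (0 * t₂) = t₀ by ring]
        have h2 : u (α t₀) ∈ frontier K := by
          rw [hC.fr]
          refine (hpre _).2 ⟨1, one_mem _, ?_⟩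
          rw [inv_one, mul_one, one_mul, ax_mh]
          exact ht₀
        exact fun h3 => hF1 _ h3 h2
      rcases eq_or_lt_of_le t.2.2 with h3 | h3
      · rw [h3, one_mul]
        exact fun h4 => hF1 _ h4 h24
      · exact fun h4 => (h25 _ (mul_pos h1 ht₂) (by nlinarith)) (interior_subset h4)

end Pool.Agent.Helper25.LN
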